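import Mathlib
import Pool.Agent.Helper91.IP.Defs

/-!
# IP-E9a: the spectral resolution of a real symmetric matrix
-/

open Finset Equiv Matrix

namespace Pool.Agent.Helper91.IP

namespace E9a

/-- Diagonalisation in the form `A = U * diagonal v * Uᵀ`. -/
theorem exists_diag {ι : Type} [Fintype ι] [DecidableEq ι] (A : Matrix ι ι ℝ) (hA : A.IsSymm) :
    ∃ (U : Matrix ι ι ℝ) (v : ι → ℝ), U * Uᵀ = 1 ∧ Uᵀ * U = 1 ∧ A = U * diagonal v * Uᵀ := by
  have hH : A.IsHermitian := by
    rw [Matrix.IsHermitian, Matrix.conjTranspose_eq_transpose_of_trivial]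
    exact hA
  refine ⟨(hH.eigenvectorUnitary : Matrix ι ι ℝ), hH.eigenvalues, ?_, ?_, ?_⟩
  · have h := Unitary.mul_star_self_of_mem hH.eigenvectorUnitary.2
    rwa [Matrix.star_eq_conjTranspose, Matrix.conjTranspose_eq_transpose_of_trivial] at h
  · have h := Unitary.star_mul_self_of_mem hH.eigenvectorUnitary.2
    rwa [Matrix.star_eq_conjTranspose, Matrix.conjTranspose_eq_transpose_of_trivial] at h
  · conv_lhs => rw [hH.spectral_theorem]
    rw [Unitary.conjStarAlgAut_apply, Matrix.star_eq_conjTranspose,
      Matrix.conjTranspose_eq_transpose_of_trivial]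
    rfl

/-- Polynomials of a diagonalised matrix. -/
theorem aeval_diag {ι : Type} [Fintype ι] [DecidableEq ι] (U : Matrix ι ι ℝ) (v : ι → ℝ)
    (h1 : U * Uᵀ = 1) (h2 : Uᵀ * U = 1) (p : Polynomial ℝ) :
    Polynomial.aeval (U * diagonal v * Uᵀ) p =
      U * diagonal (fun i => p.eval (v i)) * Uᵀ := by
  induction p using Polynomial.induction_on' with
  | add p q hp hq =>
    rw [map_add, hp, hq, ← add_mul, ← mul_add, diagonal_add]
    congr 3
    funext i
    rw [Polynomial.eval_add]
  | monomial n a =>
    rw [Polynomial.aeval_monomial]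
    have hpow : (U * diagonal v * Uᵀ) ^ n = U * diagonal (fun i => v i ^ n) * Uᵀ := by
      induction n with
      | zero => simp [h1]
      | succ n ih =>
        rw [pow_succ, ih]
        calc U * diagonal (fun i => v i ^ n) * Uᵀ * (U * diagonal v * Uᵀ) =
            U * (diagonal (fun i => v i ^ n) * (Uᵀ * U) * diagonal v) * Uᵀ := by
              simp only [Matrix.mul_assoc]
          _ = _ := by
              rw [h2, Matrix.mul_one, diagonal_mul_diagonal]
              simp only [pow_succ]
    rw [hpow, ← Algebra.smul_def, ← smul_mul_assoc, ← mul_smul_comm, ← diagonal_smul]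
    congr 3
    funext i
    simp [Polynomial.eval_monomial]

theorem commute_aeval {ι : Type} [Fintype ι] [DecidableEq ι] {A M : Matrix ι ι ℝ}
    (h : M * A = A * M) (p : Polynomial ℝ) :
    M * Polynomial.aeval A p = Polynomial.aeval A p * M := by
  have hc : Commute M A := h
  induction p using Polynomial.induction_on' with
  | add p q hp hq => rw [map_add, mul_add, add_mul, hp, hq]
  | monomial n a =>
    rw [Polynomial.aeval_monomial, ← Algebra.smul_def, mul_smul_comm, smul_mul_assoc,
      (hc.pow_right n).eq]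

end E9a

open E9a in
/-- IP-E9a (linear algebra): spectral resolution -/
theorem spectral_res {ι : Type} [Fintype ι] [DecidableEq ι] (A : Matrix ι ι ℝ) (hA : A.IsSymm) :
    ∃ (L : Finset ℝ) (E : ℝ → Matrix ι ι ℝ),
      (∀ a ∈ L, (E a).IsSymm ∧ E a * E a = E a ∧ 0 ≤ trace (E a)) ∧
      (∀ a ∈ L, ∀ M : Matrix ι ι ℝ, M * A = A * M → M * E a = E a * M) ∧
      ∀ t : ℝ, NormedSpace.exp (-(t • A)) = ∑ a ∈ L, Real.exp (-(t * a)) • E a := by
  obtain ⟨U, v, h1, h2, hU⟩ := exists_diag A hA
  set L : Finset ℝ := Finset.univ.image v with hL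
  have hmem : ∀ i, v i ∈ L := fun i => Finset.mem_image_of_mem v (Finset.mem_univ i)
  have hE : ∀ a, ∀ ha : a ∈ L, Polynomial.aeval A (Lagrange.basis L id a) =
      U * diagonal (fun i => if v i = a then (1 : ℝ) else 0) * Uᵀ := by
    intro a ha
    rw [hU, aeval_diag U v h1 h2]
    congr 3
    funext i
    split_ifs with h
    · rw [h]
      exact Lagrange.eval_basis_self (Function.injective_id.injOn) ha
    · exact Lagrange.eval_basis_of_ne (v := id) (Ne.symm h) (hmem i)
  refine ⟨L, fun a => Polynomial.aeval A (Lagrange.basis L id a), ?_, ?_, ?_⟩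
  · intro a ha
    beta_reduce
    rw [hE a ha]
    refine ⟨?_, ?_, ?_⟩
    · rw [Matrix.IsSymm, transpose_mul, transpose_mul, transpose_transpose, diagonal_transpose,
        Matrix.mul_assoc]
    · calc _ = U * (diagonal (fun i => if v i = a then (1 : ℝ) else 0) * (Uᵀ * U) *
            diagonal (fun i => if v i = a then (1 : ℝ) else 0)) * Uᵀ := by
              simp only [Matrix.mul_assoc]
        _ = _ := by
              rw [h2, Matrix.mul_one, diagonal_mul_diagonal]
              congr 3
              funext i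
              split_ifs <;> simp
    · rw [Matrix.mul_assoc, Matrix.trace_mul_comm, Matrix.mul_assoc, h2, Matrix.mul_one,
        trace_diagonal]
      exact Finset.sum_nonneg fun i _ => by split_ifs <;> norm_num
  · intro a _ M hM
    exact commute_aeval hM _
  · intro t
    have hinv : U⁻¹ = Uᵀ := Matrix.inv_eq_right_inv h1
    have hunit : IsUnit U := ⟨⟨U, Uᵀ, h1, h2⟩, rfl⟩
    have e1 : -(t • A) = U * diagonal (fun i => -(t * v i)) * U⁻¹ := by
      rw [hinv, hU, ← smul_mul_assoc, ← mul_smul_comm, ← diagonal_smul, ← neg_mul, ← mul_neg,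
        diagonal_neg]
      rfl
    have e2 : NormedSpace.exp (diagonal (fun i => -(t * v i))) =
        diagonal (fun i => Real.exp (-(t * v i))) := by
      rw [Matrix.exp_diagonal, Pi.exp_def]
      simp only [Real.exp_eq_exp_ℝ]
    rw [e1, Matrix.exp_conj U _ hunit, e2, hinv]
    have e3 : ∀ a ∈ L, Real.exp (-(t * a)) • Polynomial.aeval A (Lagrange.basis L id a) =
        U * diagonal (fun i => if v i = a then Real.exp (-(t * a)) else 0) * Uᵀ := by
      intro a ha
      rw [hE a ha, ← smul_mul_assoc, ← mul_smul_comm, ← diagonal_smul]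
      congr 3
      funext i
      simp
    rw [Finset.sum_congr rfl e3, ← Finset.sum_mul, ← Finset.mul_sum]
    congr 2
    ext i k
    rw [Matrix.sum_apply]
    by_cases hik : i = k
    · subst hik
      simp only [diagonal_apply_eq]
      rw [Finset.sum_eq_single (v i)]
      · simp
      · intro b _ hb
        rw [if_neg (Ne.symm hb)]
      · intro h
        exact absurd (hmem i) h
    · simp [diagonal_apply_ne _ hik]

end Pool.Agent.Helper91.IP
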